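import Pool.Agent.Work.MP_a2fb93_lf.Defs
import Pool.Agent.Work.MP_a2fb93_sub.Curve
set_option autoImplicit false

namespace ESub

variable {D : Type}

/-- the corner of a face of T that belongs to a dart of the refinement -/
def cor (T : Triangulation D) : RDart D → D
  | .out d => d
  | .inn d => d
  | .cross d => T.next d

/-- does the dart start at an old vertex? -/
def isOut : RDart D → Prop
  | .out _ => True
  | _ => False

theorem cor_next [Finite D] (T : Triangulation D) (x : RDart D) :
    T.SameOrigin (cor T x) (cor T (T.refine.next x)) := by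
  have nnn := T.next_next_next
  rcases x with d | d | d
  · refine ⟨0, ?_⟩
    show d = T.next (T.next (T.next d))
    rw [nnn]
  · rw [sameOrigin_iff]
    refine Equiv.Perm.SameCycle.symm ?_
    rw [← sameOrigin_iff]
    refine ⟨1, ?_⟩
    show T.inv (T.next (T.next (T.next (T.inv d)))) = d
    rw [nnn, T.inv_inv]
  · refine ⟨1, ?_⟩
    show T.inv (T.next (T.next (T.next d))) = T.inv d
    rw [nnn]

theorem so_symm [Finite D] (T : Triangulation D) {a b : D} (h : T.SameOrigin a b) : T.SameOrigin b a := by
  rw [sameOrigin_iff] at h ⊢
  exact h.symm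

theorem so_trans (T : Triangulation D) {a b c : D} (h : T.SameOrigin a b) (h' : T.SameOrigin b c) :
    T.SameOrigin a c := by
  obtain ⟨n, rfl⟩ := h
  obtain ⟨m, rfl⟩ := h'
  exact ⟨m + n, Function.iterate_add_apply _ _ _ _⟩

theorem cor_iter [Finite D] (T : Triangulation D) (x : RDart D) (s : ℕ) :
    T.SameOrigin (cor T x) (cor T (T.refine.next^[s] x)) := by
  induction s with
  | zero => exact ⟨0, rfl⟩
  | succ s ih =>
    rw [Function.iterate_succ_apply']
    exact so_trans T ih (cor_next T _)

/-- darts of the refinement with the same origin -/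
theorem cor_rot (T : Triangulation D) (x : RDart D) (n : ℕ) :
    (∃ d e, x = .out d ∧ T.refine.rot^[n] x = .out e ∧ T.SameOrigin d e) ∨
      (¬ isOut x ∧ ¬ isOut (T.refine.rot^[n] x) ∧
        ∃ s : Fin 3, T.next^[s.val] (cor T x) = cor T (T.refine.rot^[n] x)) := by
  have nnn := T.next_next_next
  have ii := T.inv_inv
  have ro : ∀ d, T.refine.rot (.out d) = .out (T.rot d) := by
    intro d
    show T.rInv (T.rNext (T.rNext (.out d))) = _
    simp [Triangulation.rInv, Triangulation.rNext, Triangulation.rot]
  have ri : ∀ d, T.refine.rot (.inn d) = .cross d := by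
    intro d
    show T.rInv (T.rNext (T.rNext (.inn d))) = _
    simp [Triangulation.rInv, Triangulation.rNext, nnn, ii]
  have rc : ∀ d, T.refine.rot (.cross d) = .inn (T.next d) := by
    intro d
    show T.rInv (T.rNext (T.rNext (.cross d))) = _
    simp [Triangulation.rInv, Triangulation.rNext, ii]
  induction n with
  | zero =>
    rcases x with d | d | d
    · exact Or.inl ⟨d, d, rfl, rfl, 0, rfl⟩
    · exact Or.inr ⟨fun h => h, fun h => h, 0, rfl⟩
    · exact Or.inr ⟨fun h => h, fun h => h, 0, rfl⟩
  | succ n ih =>
    rw [Function.iterate_succ_apply']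
    rcases ih with ⟨d, e, h1, h2, h3⟩ | ⟨h1, h2, s, h3⟩
    · left
      refine ⟨d, T.rot e, h1, by rw [h2, ro], so_trans T h3 ⟨1, rfl⟩⟩
    · right
      generalize hy : T.refine.rot^[n] x = y at h2 h3
      rcases y with e | e | e
      · exact absurd trivial h2
      · rw [ri]
        refine ⟨h1, fun h => h, ?_⟩
        -- the corner moves on
        change T.next^[s.val] (cor T x) = e at h3
        have : ∃ s' : Fin 3, T.next^[s'.val] (cor T x) = T.next e := by
          rw [← h3]
          fin_cases s
          · exact ⟨1, rfl⟩
          · exact ⟨2, rfl⟩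
          · refine ⟨0, ?_⟩
            show cor T x = T.next (T.next (T.next (cor T x)))
            rw [nnn]
        exact this
      · rw [rc]
        refine ⟨h1, fun h => h, s, ?_⟩
        rw [h3]
        rfl

section value

variable {G : Type} [Group G]

/-- the labelling of T -/
def low (T : Triangulation D) (g : RDart D → G) (d : D) : G := g (.out d) * g (.inn (T.next d))

variable {T : Triangulation D} {g : RDart D → G}

theorem g_inn (hg : IsFlat T.refine g) (d : D) : g (.inn d) = (g (.out d))⁻¹ := hg.inv (.out d)

theorem g_cross (hg : IsFlat T.refine g) (d : D) : g (.cross d) = (g (.out (T.next d)))⁻¹ * g (.out (T.inv d)) := by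
  have h := hg.face (.out (T.next d))
  change g (.out (T.next d)) * g (.cross (T.next (T.next (T.next d)))) *
    g (.inn (T.inv (T.next (T.next (T.next d))))) = 1 at h
  rw [T.next_next_next, g_inn hg] at h
  have h1 := mul_inv_eq_one.1 h
  rw [← h1]
  group

theorem low_flat (hg : IsFlat T.refine g) : IsFlat T (low T g) := by
  constructor
  · intro d
    unfold low
    have h1 := g_cross hg d
    have h2 := g_cross hg (T.inv d)
    rw [T.inv_inv] at h2
    have h3 : g (.cross (T.inv d)) = (g (.cross d))⁻¹ := hg.inv (.cross d)
    rw [h1, h2] at h3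
    rw [g_inn hg, g_inn hg]
    -- O(n inv d)⁻¹ O(d) = (O(nd)⁻¹ O(inv d))⁻¹
    have h4 : g (.out d) = g (.out (T.next (T.inv d))) * ((g (.out (T.next d)))⁻¹ * g (.out (T.inv d)))⁻¹ := by
      rw [← h3]; group
    rw [h4]
    group
  · intro d
    unfold low
    rw [g_inn hg, g_inn hg, g_inn hg, T.next_next_next]
    group

/-- the potential -/
def pot (T : Triangulation D) (g : RDart D → G) : RDart D → G
  | .out _ => 1
  | .inn d => g (.inn d)
  | .cross d => g (.inn (T.next d))

theorem g_pot (hg : IsFlat T.refine g) (x : RDart D) :
    g x = pot T g x * (pot T g (T.refine.next x))⁻¹ := by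
  rcases x with d | d | d
  · show g (.out d) = 1 * (g (.inn (T.next (T.next (T.next d)))))⁻¹
    rw [T.next_next_next, g_inn hg]
    group
  · show g (.inn d) = g (.inn d) * (1 : G)⁻¹
    group
  · show g (.cross d) = g (.inn (T.next d)) * (g (.inn (T.inv d)))⁻¹
    rw [g_cross hg, g_inn hg, g_inn hg]
    group

theorem stepVal_refine (hg : IsFlat T.refine g) (x : RDart D × Fin 3) :
    T.refine.stepVal g x = pot T g x.1 * (pot T g (T.refine.stepEnd x))⁻¹ := by
  unfold Triangulation.stepVal Triangulation.stepEnd
  generalize x.2.val = s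
  induction s with
  | zero => simp
  | succ s ih =>
    rw [List.range_succ, List.map_append, List.prod_append, ih, Function.iterate_succ_apply']
    simp only [List.map_cons, List.map_nil, List.prod_cons, List.prod_nil, mul_one]
    rw [g_pot hg (T.refine.next^[s] x.1)]
    group

theorem stepVal_low (hg : IsFlat T.refine g) (x : D × Fin 3) :
    T.stepVal (low T g) x = g (.out x.1) * (g (.out (T.stepEnd x)))⁻¹ := by
  unfold Triangulation.stepVal Triangulation.stepEnd
  generalize x.2.val = s
  induction s with
  | zero => simp
  | succ s ih =>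
    rw [List.range_succ, List.map_append, List.prod_append, ih, Function.iterate_succ_apply']
    simp only [List.map_cons, List.map_nil, List.prod_cons, List.prod_nil, mul_one]
    unfold low
    rw [g_inn hg (T.next _)]
    group

theorem pot_inn (hg : IsFlat T.refine g) {x : RDart D} (h : ¬ isOut x) : pot T g x = (g (.out (cor T x)))⁻¹ := by
  rcases x with d | d | d
  · exact absurd trivial h
  · exact g_inn hg d
  · exact g_inn hg _

end value

/-- a cyclic product -/
theorem prod_shift {G : Type} [Group G] (a b : ℕ → G) (k : ℕ) :
    ((List.range k).map fun i => a i * (b i)⁻¹).prod =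
      a 0 * ((List.range k).map fun i => (b i)⁻¹ * a (i + 1)).prod * (a k)⁻¹ := by
  induction k with
  | zero => simp
  | succ k ih =>
    rw [List.range_succ, List.map_append, List.prod_append, List.map_append, List.prod_append, ih]
    simp only [List.map_cons, List.map_nil, List.prod_cons, List.prod_nil, mul_one]
    group

/-- **the face-width does not go down** -/
theorem refine_width [Finite D] (T : Triangulation D) (n : ℕ) (h : T.FaceWidthAtLeast n) :
    T.refine.FaceWidthAtLeast n := by
  intro k hk w hw G _ g hg
  -- the step of `T` at the vertex between the steps `i` and `i + 1`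
  have key : ∀ i, ∃ z : D × Fin 3, z.1 = cor T (T.refine.stepEnd (w i)) ∧
      T.SameOrigin (T.stepEnd z) (cor T (w (i + 1)).1) ∧
      ∀ (g : RDart D → G), IsFlat T.refine g →
        T.stepVal (low T g) z = (pot T g (T.refine.stepEnd (w i)))⁻¹ * pot T g (w (i + 1)).1 := by
    intro i
    obtain ⟨m, hm⟩ := hw.glue i
    rcases cor_rot T (T.refine.stepEnd (w i)) m with ⟨d, e, h1, h2, h3⟩ | ⟨h1, h2, s, h3⟩
    · refine ⟨(d, 0), by rw [h1]; rfl, ?_, ?_⟩
      · rw [hm] at h2
        rw [h2]
        exact h3
      · intro g hg
        rw [stepVal_low hg]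
        rw [hm] at h2
        rw [h1, h2]
        show g (.out d) * (g (.out d))⁻¹ = (1 : G)⁻¹ * 1
        group
    · refine ⟨(cor T (T.refine.stepEnd (w i)), s), rfl, ?_, ?_⟩
      · rw [hm] at h3
        exact ⟨0, h3⟩
      · intro g hg
        rw [stepVal_low hg, pot_inn hg h1]
        rw [hm] at h2 h3
        rw [pot_inn hg h2]
        show g (.out (cor T (T.refine.stepEnd (w i)))) * (g (.out (T.next^[s.val] _)))⁻¹ = _
        rw [h3]
        group
  choose z z1 z2 z3 using key
  -- a periodic choice
  let z' : ℕ → D × Fin 3 := fun i => z (i % k)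
  rcases Nat.eq_zero_or_pos k with rfl | hk0
  · simp
  have wp : ∀ i, w (i % k) = w i := by
    intro i
    have : ∀ q r, w (r + k * q) = w r := by
      intro q
      induction q with
      | zero => intro r; rfl
      | succ q ih =>
        intro r
        rw [Nat.mul_succ, ← add_assoc, hw.periodic, ih]
    have h1 := this (i / k) (i % k)
    rw [Nat.mod_add_div] at h1
    exact h1.symm
  have wp1 : ∀ i, w (i % k + 1) = w (i + 1) := by
    intro i
    rw [← wp (i % k + 1), ← wp (i + 1), Nat.mod_add_mod]
  have hz : T.IsClosedCurve k z' := by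
    constructor
    · intro i
      show z ((i + k) % k) = z (i % k)
      rw [Nat.add_mod_right]
    · intro i
      have h1 := z2 (i % k)
      rw [wp1] at h1
      refine so_trans T h1 ?_
      show T.SameOrigin _ (z ((i + 1) % k)).1
      rw [z1, wp]
      exact cor_iter T _ _
  have h2 := h k hk z' hz G (low T g) (low_flat hg)
  have h3 : ((List.range k).map fun i => T.refine.stepVal g (w i)).prod =
      ((List.range k).map fun i => pot T g (w i).1 * (pot T g (T.refine.stepEnd (w i)))⁻¹).prod := by
    congr 1
    apply List.map_congr_left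
    intro i _
    exact stepVal_refine hg _
  rw [h3, prod_shift (fun i => pot T g (w i).1) (fun i => pot T g (T.refine.stepEnd (w i)))]
  have h4 : ((List.range k).map fun i => (pot T g (T.refine.stepEnd (w i)))⁻¹ * pot T g (w (i + 1)).1).prod =
      ((List.range k).map fun i => T.stepVal (low T g) (z' i)).prod := by
    congr 1
    apply List.map_congr_left
    intro i _
    show _ = T.stepVal (low T g) (z (i % k))
    rw [z3 _ g hg, wp, wp1]
  rw [h4, h2]
  have h5 : w k = w 0 := by
    have := hw.periodic 0
    rwa [Nat.zero_add] at this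
  simp only [h5]
  group

end ESub
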