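import Pool.Agent.Work.MP_a2fb93_lf.Col
import Pool.Agent.Work.MP_a2fb93_lf.Width
import Pool.Agent.Work.MP_a2fb93_ev.B_HOL
import Pool.Agent.Work.MP_a2fb93_ev.B_VTX
set_option autoImplicit false

namespace ESub

variable {D : Type}

instance [Finite D] : Finite (RDart D) := by
  have : Function.Surjective (fun x : D × Fin 3 => match x.2 with
    | 0 => RDart.out x.1
    | 1 => RDart.inn x.1
    | 2 => RDart.cross x.1) := by
    rintro (d | d | d)
    · exact ⟨(d, 0), rfl⟩
    · exact ⟨(d, 1), rfl⟩
    · exact ⟨(d, 2), rfl⟩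
  exact Finite.of_surjective _ this

/-! ### Curves and walks -/

theorem walk_append (T : Triangulation D) {l l' : List D} {u v w : T.Vertex} (h : T.IsWalk l u v)
    (h' : T.IsWalk l' v w) : T.IsWalk (l ++ l') u w := by
  induction l generalizing u with
  | nil => cases h; exact h'
  | cons d l ih => exact ⟨h.1, ih h.2⟩

/-- a closed curve is a closed walk -/
theorem curve_walk [Finite D] (T : Triangulation D) {k : ℕ} {w : ℕ → D × Fin 3} (hw : T.IsClosedCurve k w) :
    ∃ l : List D, l.length ≤ k ∧ T.IsWalk l (T.org (w 0).1) (T.org (w 0).1) ∧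
      ∀ (G : Type) [Group G] (g : D → G), IsFlat T g →
        ((List.range k).map fun i => T.stepVal g (w i)).prod = (l.map g).prod := by
  obtain ⟨-, -, hso, hrot, hnext, -, htinv, -⟩ := p_VTX D T
  have step : ∀ x : D × Fin 3, ∃ l : List D, l.length ≤ 1 ∧ T.IsWalk l (T.org x.1) (T.org (T.stepEnd x)) ∧
      ∀ (G : Type) [Group G] (g : D → G), IsFlat T g → T.stepVal g x = (l.map g).prod := by
    rintro ⟨a, s⟩
    fin_cases s
    · exact ⟨[], by simp, rfl, fun G _ g _ => by simp [Triangulation.stepVal]⟩
    · refine ⟨[a], by simp, ⟨rfl, ?_⟩, fun G _ g _ => by simp [Triangulation.stepVal]⟩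
      show T.tgt a = T.org (T.next a)
      rw [hnext]
    · refine ⟨[T.rot a], by simp, ⟨hrot a, ?_⟩, fun G _ g hg => ?_⟩
      · show T.org (T.inv (T.inv (T.next (T.next a)))) = T.org (T.next (T.next a))
        rw [T.inv_inv]
      · have h1 : T.stepVal g (a, 2) = g a * g (T.next a) := by
          simp [Triangulation.stepVal, List.range_succ]
        show T.stepVal g (a, 2) = _
        rw [h1]
        have h2 := hg.face a
        have h3 : g (T.rot a) = (g (T.next (T.next a)))⁻¹ := hg.inv _
        simp only [List.map_cons, List.map_nil, List.prod_cons, List.prod_nil, mul_one]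
        rw [h3]
        exact mul_eq_one_iff_eq_inv.1 h2
  have key : ∀ j, ∃ l : List D, l.length ≤ j ∧ T.IsWalk l (T.org (w 0).1) (T.org (w j).1) ∧
      ∀ (G : Type) [Group G] (g : D → G), IsFlat T g →
        ((List.range j).map fun i => T.stepVal g (w i)).prod = (l.map g).prod := by
    intro j
    induction j with
    | zero => exact ⟨[], by simp, rfl, fun G _ g _ => by simp⟩
    | succ j ih =>
      obtain ⟨l, l1, l2, l3⟩ := ih
      obtain ⟨m, m1, m2, m3⟩ := step (w j)
      refine ⟨l ++ m, ?_, ?_, ?_⟩
      · rw [List.length_append]; omega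
      · refine walk_append T l2 ?_
        have h := (hso _ _).2 (hw.glue j)
        rw [← h]
        exact m2
      · intro G _ g hg
        rw [List.range_succ, List.map_append, List.prod_append, l3 G g hg]
        simp [m3 G g hg]
  obtain ⟨l, l1, l2, l3⟩ := key k
  refine ⟨l, l1, ?_, l3⟩
  have h5 : w k = w 0 := by
    have := hw.periodic 0
    rwa [Nat.zero_add] at this
  rw [h5] at l2
  exact l2

/-! ### Places of the refinement -/

/-- the place of the origin of a dart of the refinement: a vertex or a face of T -/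
def loc (T : Triangulation D) : RDart D → T.Vertex ⊕ Face T
  | .out d => .inl (T.org d)
  | .inn d => .inr (face T d)
  | .cross d => .inr (face T d)

theorem loc_rot [Finite D] (T : Triangulation D) (x : RDart D) : loc T (T.refine.rot x) = loc T x := by
  have nnn := T.next_next_next
  have ii := T.inv_inv
  rcases x with d | d | d
  · have : T.refine.rot (.out d) = .out (T.rot d) := by
      show T.rInv (T.rNext (T.rNext (.out d))) = _
      simp [Triangulation.rInv, Triangulation.rNext, Triangulation.rot]
    rw [this]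
    show Sum.inl (T.org (T.rot d)) = Sum.inl (T.org d)
    congr 1
    exact (Quot.sound (⟨1, rfl⟩ : T.SameOrigin d (T.rot d))).symm
  · have : T.refine.rot (.inn d) = .cross d := by
      show T.rInv (T.rNext (T.rNext (.inn d))) = _
      simp [Triangulation.rInv, Triangulation.rNext, nnn, ii]
    rw [this]
    rfl
  · have : T.refine.rot (.cross d) = .inn (T.next d) := by
      show T.rInv (T.rNext (T.rNext (.cross d))) = _
      simp [Triangulation.rInv, Triangulation.rNext, ii]
    rw [this]
    show Sum.inr (face T (T.next d)) = Sum.inr (face T d)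
    rw [face_next]

/-- the place of a vertex of the refinement -/
noncomputable def locV [Finite D] (T : Triangulation D) : T.refine.Vertex → T.Vertex ⊕ Face T :=
  Quot.lift (loc T) (by
    rintro a b ⟨n, rfl⟩
    induction n with
    | zero => rfl
    | succ n ih => rw [Function.iterate_succ_apply', loc_rot]; exact ih)

/-- walks of places -/
def LWalk (T : Triangulation D) : List (RDart D) → T.Vertex ⊕ Face T → T.Vertex ⊕ Face T → Prop
  | [], p, q => p = q
  | r :: l, p, q => loc T r = p ∧ LWalk T l (loc T (T.rInv r)) q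

theorem lwalk_of [Finite D] (T : Triangulation D) {l : List (RDart D)} {u v : T.refine.Vertex}
    (h : T.refine.IsWalk l u v) : LWalk T l (locV T u) (locV T v) := by
  induction l generalizing u with
  | nil => cases h; rfl
  | cons r l ih =>
    obtain ⟨h1, h2⟩ := h
    subst h1
    exact ⟨rfl, ih h2⟩

theorem lwalk_append (T : Triangulation D) {l l' : List (RDart D)} {p q : T.Vertex ⊕ Face T} :
    LWalk T (l ++ l') p q ↔ ∃ r, LWalk T l p r ∧ LWalk T l' r q := by
  induction l generalizing p with
  | nil => exact ⟨fun h => ⟨p, rfl, h⟩, fun ⟨r, h1, h2⟩ => by cases h1; exact h2⟩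
  | cons r l ih =>
    constructor
    · rintro ⟨h1, h2⟩
      obtain ⟨r', h3, h4⟩ := ih.1 h2
      exact ⟨r', ⟨h1, h3⟩, h4⟩
    · rintro ⟨r', ⟨h1, h3⟩, h4⟩
      exact ⟨h1, ih.2 ⟨r', h3, h4⟩⟩

/-! ### The machine -/

section machine

variable (T : Triangulation D)

/-- the product of the labels of the list L in terms of T -/
def Val (b : Bool) (L : List (RDart D)) (q : D) (W : List D) (p : Option D) : Prop :=
  ∀ (G : Type) [Group G] (g : RDart D → G), IsFlat T.refine g →
    (L.map g).prod = (if b then 1 else (g (.out q))⁻¹) * (W.map (low T g)).prod *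
      (match p with
        | none => 1
        | some p => g (.out p))

variable (b : Bool) (S : D → Prop) (a : ℕ)

def StE (L : List (RDart D)) (f : Face T) : Prop :=
  ∃ q p W, S q ∧ face T p = f ∧ T.IsWalk W (T.org q) (T.org p) ∧ 3 * W.length + 2 + a ≤ 2 * L.length ∧
    Val T b L q W (some p)

def StD (L : List (RDart D)) (f : Face T) : Prop :=
  ∃ x, face T x = f ∧ ∀ p, (p = x ∨ p = T.next x) → ∃ q W, S q ∧ T.IsWalk W (T.org q) (T.org p) ∧
    3 * W.length + 1 + a ≤ 2 * L.length ∧ Val T b L q W (some p)

def StO (L : List (RDart D)) (v : T.Vertex) : Prop :=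
  ∃ q W, S q ∧ T.IsWalk W (T.org q) v ∧ 3 * W.length + a ≤ 2 * L.length ∧ Val T b L q W none

def St (L : List (RDart D)) : T.Vertex ⊕ Face T → Prop
  | .inl v => StO T b S a L v
  | .inr f => StE T b S a L f ∨ StD T b S a L f

end machine

variable {T : Triangulation D} {b : Bool} {S : D → Prop} {a : ℕ}

theorem org_next [Finite D] (T : Triangulation D) (d : D) : T.org (T.next d) = T.org (T.inv d) :=
  (p_VTX D T).2.2.2.2.1 d

theorem corner_step [Finite D] {p q : D} (h : face T p = face T q) :
    ∃ U : List D, U.length ≤ 1 ∧ T.IsWalk U (T.org p) (T.org q) ∧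
      ∀ (G : Type) [Group G] (g : RDart D → G), IsFlat T.refine g →
        (U.map (low T g)).prod = g (.out p) * (g (.out q))⁻¹ := by
  rcases (face_eq_iff T _ _).1 h with rfl | rfl | rfl
  · exact ⟨[], by simp, rfl, fun G _ g _ => by simp⟩
  · refine ⟨[p], by simp, ⟨rfl, ?_⟩, fun G _ g hg => ?_⟩
    · exact (org_next T p).symm
    · simp [low, g_inn hg]
  · refine ⟨[T.rot p], by simp, ⟨(p_VTX D T).2.2.2.1 p, ?_⟩, fun G _ g hg => ?_⟩
    · show T.org (T.inv (T.inv (T.next (T.next p)))) = T.org (T.next (T.next p))
      rw [T.inv_inv]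
    · have h1 : low T g (T.rot p) = (low T g (T.next (T.next p)))⁻¹ := (low_flat hg).inv _
      simp only [List.map_cons, List.map_nil, List.prod_cons, List.prod_nil, mul_one]
      rw [h1]
      unfold low
      rw [T.next_next_next, g_inn hg]
      group

theorem g_cross' {G : Type} [Group G] {g : RDart D → G} (hg : IsFlat T.refine g) (d : D) :
    g (.cross d) = (g (.out d))⁻¹ * g (.out (T.next (T.inv d))) := by
  have h1 : g (.cross (T.inv d)) = (g (.cross d))⁻¹ := hg.inv (.cross d)
  have h2 := g_cross hg (T.inv d)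
  rw [T.inv_inv] at h2
  rw [← inv_inv (g (.cross d)), ← h1, h2]
  group

/-- leave the corner q' of a face and arrive at p' -/
theorem Val.cross {L : List (RDart D)} {q : D} {W U : List D} {p q' p' d : D}
    (h : Val T b L q W (some p))
    (hU : ∀ (G : Type) [Group G] (g : RDart D → G), IsFlat T.refine g →
        (U.map (low T g)).prod = g (.out p) * (g (.out q'))⁻¹)
    (hc : (q' = T.next d ∧ p' = T.inv d) ∨ (q' = d ∧ p' = T.next (T.inv d))) :
    Val T b (L ++ [.cross d]) q (W ++ U) (some p') := by
  intro G _ g hg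
  have h1 := h G g hg
  have h2 : g (.cross d) = (g (.out q'))⁻¹ * g (.out p') := by
    rcases hc with ⟨rfl, rfl⟩ | ⟨rfl, rfl⟩
    · exact g_cross hg d
    · exact g_cross' hg _
  rw [List.map_append, List.prod_append, h1, List.map_append, List.prod_append, hU G g hg]
  simp only [List.map_cons, List.map_nil, List.prod_cons, List.prod_nil, mul_one]
  rw [h2]
  group

theorem Val.inn {L : List (RDart D)} {q : D} {W U : List D} {p d : D}
    (h : Val T b L q W (some p))
    (hU : ∀ (G : Type) [Group G] (g : RDart D → G), IsFlat T.refine g →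
        (U.map (low T g)).prod = g (.out p) * (g (.out d))⁻¹) :
    Val T b (L ++ [.inn d]) q (W ++ U) none := by
  intro G _ g hg
  have h1 := h G g hg
  rw [List.map_append, List.prod_append, h1, List.map_append, List.prod_append, hU G g hg]
  simp only [List.map_cons, List.map_nil, List.prod_cons, List.prod_nil, mul_one]
  rw [g_inn hg]
  group

theorem Val.out {L : List (RDart D)} {q : D} {W : List D} {e : D}
    (h : Val T b L q W none) : Val T b (L ++ [.out e]) q W (some e) := by
  intro G _ g hg
  have h1 := h G g hg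
  rw [List.map_append, List.prod_append, h1]
  simp only [List.map_cons, List.map_nil, List.prod_cons, List.prod_nil, mul_one]

theorem st_step [Finite D] {L : List (RDart D)} (r : RDart D) (h : St T b S a L (loc T r)) :
    St T b S a (L ++ [r]) (loc T (T.rInv r)) := by
  have hlen : (L ++ [r]).length = L.length + 1 := by simp
  rcases r with d | d | d
  · -- `out`
    obtain ⟨q, W, h1, h2, h3, h4⟩ := h
    left
    exact ⟨q, d, W, h1, rfl, h2, by rw [hlen]; omega, h4.out⟩
  · -- `inn`
    rcases h with ⟨q, p, W, h1, h2, h3, h4, h5⟩ | ⟨x, h1, h2⟩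
    · obtain ⟨U, u1, u2, u3⟩ := corner_step h2
      refine ⟨q, W ++ U, h1, walk_append T h3 u2, ?_, h5.inn u3⟩
      rw [hlen, List.length_append]; omega
    · obtain ⟨q, W, h3, h4, h5, h6⟩ := h2 x (Or.inl rfl)
      obtain ⟨U, u1, u2, u3⟩ := corner_step h1
      refine ⟨q, W ++ U, h3, walk_append T h4 u2, ?_, h6.inn u3⟩
      rw [hlen, List.length_append]; omega
  · -- `cross`
    have e1 : T.org (T.next d) = T.org (T.inv d) := org_next T d
    have e2 : T.org (T.next (T.inv d)) = T.org d := by rw [org_next, T.inv_inv]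
    rcases h with ⟨q, p, W, h1, h2, h3, h4, h5⟩ | ⟨x, h1, h2⟩
    · right
      refine ⟨T.inv d, rfl, ?_⟩
      rintro p' (rfl | rfl)
      · obtain ⟨U, u1, u2, u3⟩ := corner_step (h2.trans (face_next T d).symm)
        refine ⟨q, W ++ U, h1, ?_, ?_, h5.cross u3 (Or.inl ⟨rfl, rfl⟩)⟩
        · rw [← e1]
          exact walk_append T h3 u2
        · rw [hlen, List.length_append]; omega
      · obtain ⟨U, u1, u2, u3⟩ := corner_step h2
        refine ⟨q, W ++ U, h1, ?_, ?_, h5.cross u3 (Or.inr ⟨rfl, rfl⟩)⟩
        · rw [e2]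
          exact walk_append T h3 u2
        · rw [hlen, List.length_append]; omega
    · left
      have hnil : ∀ p : D, ∀ (G : Type) [Group G] (g : RDart D → G), IsFlat T.refine g →
          (([] : List D).map (low T g)).prod = g (.out p) * (g (.out p))⁻¹ := by
        intro p G _ g _
        simp
      rcases (face_eq_iff T _ _).1 h1 with rfl | rfl | rfl
      · obtain ⟨q, W, h3, h4, h5, h6⟩ := h2 d (Or.inl rfl)
        refine ⟨q, T.next (T.inv d), W ++ [], h3, face_next T _, ?_, ?_, h6.cross (hnil d) (Or.inr ⟨rfl, rfl⟩)⟩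
        · rw [e2, List.append_nil]; exact h4
        · rw [hlen, List.append_nil]; omega
      · obtain ⟨q, W, h3, h4, h5, h6⟩ := h2 (T.next x) (Or.inr rfl)
        refine ⟨q, T.next (T.inv (T.next x)), W ++ [], h3, face_next T _, ?_, ?_,
          h6.cross (hnil _) (Or.inr ⟨rfl, rfl⟩)⟩
        · rw [e2, List.append_nil]; exact h4
        · rw [hlen, List.append_nil]; omega
      · obtain ⟨q, W, h3, h4, h5, h6⟩ := h2 x (Or.inl rfl)
        refine ⟨q, T.inv (T.next (T.next x)), W ++ [], h3, rfl, ?_, ?_,
          h6.cross (hnil _) (Or.inl ⟨(T.next_next_next x).symm, rfl⟩)⟩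
        · rw [← e1, T.next_next_next, List.append_nil]; exact h4
        · rw [hlen, List.append_nil]; omega

theorem st_walk [Finite D] {l : List (RDart D)} : ∀ {L : List (RDart D)} {p q : T.Vertex ⊕ Face T},
    LWalk T l p q → St T b S a L p → St T b S a (L ++ l) q := by
  induction l with
  | nil =>
    intro L p q h hs
    cases h
    rwa [List.append_nil]
  | cons r l ih =>
    intro L p q h hs
    obtain ⟨h1, h2⟩ := h
    subst h1
    have := ih h2 (st_step r hs)
    rwa [List.append_assoc] at this

/-- no `out`: then only `cross` -/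
theorem all_cross {l : List (RDart D)} {f : Face T} : ∀ {p : T.Vertex ⊕ Face T}, (∀ e, RDart.out e ∉ l) →
    LWalk T l p (.inr f) → ∀ r ∈ l, ∃ d, r = .cross d := by
  induction l with
  | nil => intro p _ _ r hr; simp at hr
  | cons r l ih =>
    intro p hn h
    obtain ⟨h1, h2⟩ := h
    have hn' : ∀ e, RDart.out e ∉ l := fun e he => hn e (List.mem_cons_of_mem _ he)
    have hr : ∃ d, r = .cross d := by
      rcases r with d | d | d
      · exact absurd List.mem_cons_self (hn d)
      · exfalso
        rcases l with _ | ⟨r', l⟩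
        · cases h2
        · obtain ⟨h3, -⟩ := h2
          rcases r' with e | e | e
          · exact hn' e List.mem_cons_self
          · cases h3
          · cases h3
      · exact ⟨d, rfl⟩
    intro r' hr'
    rcases List.mem_cons.1 hr' with rfl | h3
    · exact hr
    · exact ih hn' h2 r' h3

theorem prod_one_of_old [Finite D] {n : ℕ} (h : T.FaceWidthAtLeast n) {l : List (RDart D)} {e : D}
    (hl : LWalk T (.out e :: l) (.inl (T.org e)) (.inl (T.org e))) (hlen : 2 * (l.length + 1) < 3 * n)
    {G : Type} [Group G] {g : RDart D → G} (hg : IsFlat T.refine g) :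
    ((RDart.out e :: l).map g).prod = 1 := by
  have h0 : St T true (fun q => q = e) 0 [] (.inl (T.org e)) :=
    ⟨e, [], rfl, rfl, by simp, fun G _ g _ => by simp⟩
  obtain ⟨q, W, rfl, h2, h3, h4⟩ := st_walk hl h0
  simp only [List.nil_append, List.length_cons] at h3
  have h5 := p_HOL p_VTX D T n h W _ h2 (by omega) G (low T g) (low_flat hg)
  have h6 := h4 G g hg
  rw [List.nil_append] at h6
  rw [h6, h5]
  simp

theorem prod_one_of_centre [Finite D] {n : ℕ} (hT : T.Loopless) (h : T.FaceWidthAtLeast n)
    {l : List (RDart D)} {f : Face T}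
    (hn : ∀ e, RDart.out e ∉ l) (hl : LWalk T l (.inr f) (.inr f)) (hlen : 2 * l.length < 3 * n)
    {G : Type} [Group G] {g : RDart D → G} (hg : IsFlat T.refine g) :
    (l.map g).prod = 1 := by
  have hc := all_cross hn hl
  rcases l with _ | ⟨r, l⟩
  · simp
  obtain ⟨d, rfl⟩ := hc r List.mem_cons_self
  obtain ⟨k1, k2⟩ := hl
  rcases l with _ | ⟨r', l⟩
  · exfalso
    have h1 : (Sum.inr (face T (T.inv d)) : T.Vertex ⊕ Face T) = .inr f := k2
    have h2 : (Sum.inr (face T d) : T.Vertex ⊕ Face T) = .inr f := k1
    exact face_ne T hT d (Sum.inr.inj (h1.trans h2.symm))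
  obtain ⟨d', rfl⟩ := hc r' (by simp)
  obtain ⟨k3, k4⟩ := k2
  have k3' : face T d' = face T (T.inv d) := Sum.inr.inj k3
  have k1' : face T d = f := Sum.inr.inj k1
  -- the state after the first two steps
  have e1 : T.org (T.next d) = T.org (T.inv d) := org_next T d
  have e2 : T.org (T.next (T.inv d)) = T.org d := by rw [org_next, T.inv_inv]
  have hst : St T false (fun q => face T q = f) 2 [.cross d, .cross d'] (loc T (T.rInv (.cross d'))) := by
    left
    have hv1 : Val T false [.cross d] (T.next d) [] (some (T.inv d)) := by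
      intro G _ g hg
      simp [g_cross hg d]
    have hv2 : Val T false [.cross d] d [] (some (T.next (T.inv d))) := by
      intro G _ g hg
      simp [g_cross' hg d]
    have hnil : ∀ p : D, ∀ (G : Type) [Group G] (g : RDart D → G), IsFlat T.refine g →
        (([] : List D).map (low T g)).prod = g (.out p) * (g (.out p))⁻¹ := by
      intro p G _ g _
      simp
    have f1 : T.org (T.next d') = T.org (T.inv d') := org_next T d'
    have f2 : T.org (T.next (T.inv d')) = T.org d' := by rw [org_next, T.inv_inv]
    rcases (face_eq_iff T _ _).1 k3'.symm with h1 | h1 | h1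
    · -- `d' = inv d`
      refine ⟨T.next d, T.next (T.inv d'), [] ++ [], (face_next T d).trans k1', face_next T _, ?_, by simp,
        hv1.cross (hnil _) (Or.inr ⟨h1.symm, rfl⟩)⟩
      show T.org (T.next d) = T.org (T.next (T.inv d'))
      rw [f2, e1, h1]
    · -- `d' = next (inv d)`
      refine ⟨d, T.next (T.inv d'), [] ++ [], k1', face_next T _, ?_, by simp,
        hv2.cross (hnil _) (Or.inr ⟨h1.symm, rfl⟩)⟩
      show T.org d = T.org (T.next (T.inv d'))
      rw [f2, h1, e2]
    · -- `d' = next (next (inv d))`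
      refine ⟨T.next d, T.inv d', [] ++ [], (face_next T d).trans k1', rfl, ?_, by simp,
        hv1.cross (hnil _) (Or.inl ⟨by rw [h1, T.next_next_next], rfl⟩)⟩
      show T.org (T.next d) = T.org (T.inv d')
      rw [← f1, h1, T.next_next_next, e1]
  have hend := st_walk k4 hst
  have hfin : ∀ (q p : D) (W : List D), face T q = f → face T p = f → T.IsWalk W (T.org q) (T.org p) →
      3 * W.length + 3 ≤ 2 * (l.length + 2) → Val T false ([.cross d, .cross d'] ++ l) q W (some p) →
      ((RDart.cross d :: .cross d' :: l).map g).prod = 1 := by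
    intro q p W h1 h2 h3 h4 h5
    obtain ⟨U, u1, u2, u3⟩ := corner_step (h2.trans h1.symm)
    simp only [List.length_cons] at hlen
    have h6 := p_HOL p_VTX D T n h (W ++ U) _ (walk_append T h3 u2)
      (by rw [List.length_append]; omega) G (low T g) (low_flat hg)
    rw [List.map_append, List.prod_append, u3 G g hg] at h6
    have h7 := h5 G g hg
    have h8 : ((RDart.cross d :: .cross d' :: l).map g).prod =
        (g (.out q))⁻¹ * (W.map (low T g)).prod * g (.out p) := by
      simpa using h7
    rw [h8]
    have h9 : (W.map (low T g)).prod * g (.out p) = g (.out q) := by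
      rw [← mul_assoc] at h6
      exact mul_inv_eq_one.1 h6
    rw [mul_assoc, h9]
    group
  rcases hend with ⟨q, p, W, h1, h2, h3, h4, h5⟩ | ⟨x, h1, h2⟩
  · refine hfin q p W h1 h2 h3 ?_ h5
    simp at h4
    omega
  · obtain ⟨q, W, h3, h4, h5, h6⟩ := h2 x (Or.inl rfl)
    refine hfin q x W h3 h1 h4 ?_ h6
    simp at h5
    omega

/-- **the face-width grows by a factor of at least 3/2** -/
theorem refine_grow [Finite D] (T : Triangulation D) (hT : T.Loopless) (n m : ℕ) (h : T.FaceWidthAtLeast n)
    (hm : 2 * m ≤ 3 * n) : T.refine.FaceWidthAtLeast m := by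
  intro k hk w hw G _ g hg
  obtain ⟨l, l1, l2, l3⟩ := curve_walk T.refine hw
  rw [l3 G g hg]
  have h1 := lwalk_of T l2
  generalize locV T (T.refine.org (w 0).1) = P at h1
  by_cases ho : ∃ e, RDart.out e ∈ l
  · obtain ⟨e, he⟩ := ho
    obtain ⟨s, t, rfl⟩ := List.append_of_mem he
    obtain ⟨r, h2, h3⟩ := (lwalk_append T).1 h1
    obtain ⟨h4, h5⟩ := h3
    have h4' : r = .inl (T.org e) := h4.symm
    subst h4'
    have h6 : LWalk T (.out e :: (t ++ s)) (.inl (T.org e)) (.inl (T.org e)) :=
      ⟨rfl, (lwalk_append T).2 ⟨P, h5, h2⟩⟩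
    have h7 := prod_one_of_old h h6 (by
      simp only [List.length_append, List.length_cons] at l1 ⊢
      omega) hg
    simp only [List.map_cons, List.map_append, List.prod_cons, List.prod_append] at h7 ⊢
    have h8 : g (.out e) * (t.map g).prod = ((s.map g).prod)⁻¹ := by
      rw [← mul_assoc] at h7
      exact mul_eq_one_iff_eq_inv.1 h7
    rw [h8]
    group
  · push Not at ho
    rcases l with _ | ⟨r, l⟩
    · simp
    have hP : ∃ f, P = .inr f := by
      obtain ⟨h2, -⟩ := h1
      rcases r with d | d | d
      · exact absurd List.mem_cons_self (ho d)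
      · exact ⟨_, h2.symm⟩
      · exact ⟨_, h2.symm⟩
    obtain ⟨f, rfl⟩ := hP
    exact prod_one_of_centre hT h ho h1 (by omega) hg

end ESub
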