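import Pool.Agent.Work.MP_a2fb93_lf.Defs
import Pool.Agent.Work.MP_a2fb93_sub.Three
set_option autoImplicit false

namespace ESub

variable {D : Type}

open Classical

/-- the three splittings of four elements into pairs -/
def pc (a b : Fin 4) : Fin 3 :=
  if (a = 0 ∧ b = 1) ∨ (a = 1 ∧ b = 0) ∨ (a = 2 ∧ b = 3) ∨ (a = 3 ∧ b = 2) then 0
  else if (a = 0 ∧ b = 2) ∨ (a = 2 ∧ b = 0) ∨ (a = 1 ∧ b = 3) ∨ (a = 3 ∧ b = 1) then 1 else 2

theorem pc_comm (a b : Fin 4) : pc a b = pc b a := by revert a b; decide
theorem pc_ne1 {a b c : Fin 4} (h1 : a ≠ b) (h2 : a ≠ c) (h3 : b ≠ c) : pc a b ≠ pc a c := by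
  revert a b c; decide
theorem pc_ne2 {a b c : Fin 4} (h1 : a ≠ b) (h2 : a ≠ c) (h3 : b ≠ c) : pc a b ≠ pc b c := by
  revert a b c; decide
theorem pc_ne3 {a b c : Fin 4} (h1 : a ≠ b) (h2 : a ≠ c) (h3 : b ≠ c) : pc a c ≠ pc b c := by
  revert a b c; decide

/-- the two other faces at the end of an edge differ, in a certain sense -/
theorem no_twist (T : Triangulation D) (hT : T.Loopless) (d : D) :
    face T (T.inv (T.next (T.next d))) ≠ face T (T.inv (T.next (T.next (T.inv d)))) := by
  intro h
  have ii := T.inv_inv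
  have nnn := T.next_next_next
  have r1 : ∀ x, T.rot (T.next x) = T.inv x := fun x => by simp [Triangulation.rot, nnn]
  have r2 : T.rot d = T.inv (T.next (T.next d)) := rfl
  rcases (face_eq_iff T _ _).1 h with h | h | h
  · -- the same dart
    have h1 := congrArg T.inv h
    rw [ii, ii] at h1
    have h2 := congrArg T.next h1
    rw [nnn, nnn] at h2
    exact T.inv_ne d h2
  · -- `inv b = next (inv (nn d))`
    -- then `next d` and `next (next d)` have the same origin
    apply hT (T.next d)
    have e1 : T.rot (T.next d) = T.inv d := r1 d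
    have e2 : T.rot (T.inv d) = T.inv (T.next (T.next (T.inv d))) := rfl
    have e3 : T.rot (T.inv (T.next (T.next (T.inv d)))) = T.next (T.next d) := by
      rw [h]
      show T.inv (T.next (T.next (T.next (T.inv (T.next (T.next d)))))) = _
      rw [nnn, ii]
    have e4 : T.rot (T.next (T.next d)) = T.inv (T.next d) := r1 _
    refine ⟨4, ?_⟩
    show T.rot (T.rot (T.rot (T.rot (T.next d)))) = _
    rw [e1, e2, e3, e4]
  · -- `inv b = next (next (inv (nn d)))`
    apply hT (T.next (T.inv d))
    have e1 : T.rot (T.next (T.inv d)) = d := by rw [r1, ii]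
    have e3 : T.rot (T.inv (T.next (T.next d))) = T.next (T.next (T.inv d)) := by
      show T.inv (T.next (T.next (T.inv (T.next (T.next d))))) = _
      rw [← h, ii]
    have e4 : T.rot (T.next (T.next (T.inv d))) = T.inv (T.next (T.inv d)) := r1 _
    refine ⟨4, ?_⟩
    show T.rot (T.rot (T.rot (T.rot (T.next (T.inv d))))) = _
    rw [e1, r2, e3, e4]

/-- the three neighbours of the face of d -/
noncomputable def nbf (T : Triangulation D) (d : D) : Finset (Face T) :=
  {face T (T.inv d), face T (T.inv (T.next d)), face T (T.inv (T.next (T.next d)))}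

theorem adj_nbf (T : Triangulation D) {d : D} {q : Face T} (h : (dual T).Adj (face T d) q) : q ∈ nbf T d := by
  obtain ⟨h0, e, h1, h2⟩ := h
  rw [← h2]
  rcases (face_eq_iff T _ _).1 h1.symm with rfl | rfl | rfl <;> simp [nbf]

theorem card_nbf (T : Triangulation D) (d : D) : (nbf T d).card ≤ 3 := Finset.card_le_three

/-- a face in a 4-clique of the dual graph -/
def InK (T : Triangulation D) (f : Face T) : Prop :=
  ∃ B : Finset (Face T), EQ52.Clq (dual T) B ∧ B.card = 4 ∧ f ∈ B

theorem clq_erase (T : Triangulation D) {B : Finset (Face T)} (hB : EQ52.Clq (dual T) B) (h4 : 4 ≤ B.card)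
    {d : D} (hd : face T d ∈ B) : B.erase (face T d) = nbf T d ∧ (nbf T d).card = 3 := by
  have h1 : B.erase (face T d) ⊆ nbf T d := by
    intro q hq
    rw [Finset.mem_erase] at hq
    exact adj_nbf T (hB _ hd _ hq.2 (Ne.symm hq.1))
  have h2 := Finset.card_erase_of_mem hd
  have h3 := card_nbf T d
  have h4' := Finset.card_le_card h1
  exact ⟨Finset.eq_of_subset_of_card_le h1 (by omega), by omega⟩

theorem card_clq (T : Triangulation D) {B : Finset (Face T)} (hB : EQ52.Clq (dual T) B) : B.card ≤ 4 := by
  by_contra h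
  push Not at h
  obtain ⟨f, hf⟩ : B.Nonempty := Finset.card_pos.1 (by omega)
  obtain ⟨d, rfl⟩ := exists_face T f
  obtain ⟨h1, h2⟩ := clq_erase T hB (by omega) hf
  have h3 := Finset.card_erase_of_mem hf
  rw [h1] at h3
  omega

theorem face_ne (T : Triangulation D) (hT : T.Loopless) (d : D) : face T (T.inv d) ≠ face T d := by
  intro h
  have ii := T.inv_inv
  have nnn := T.next_next_next
  rcases (face_eq_iff T _ _).1 h.symm with h | h | h
  · exact T.inv_ne d h
  · -- `inv d = next d`
    apply hT (T.next (T.next d))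
    refine ⟨2, ?_⟩
    have h' : T.inv (T.next d) = d := by rw [← h, ii]
    show T.inv (T.next (T.next (T.inv (T.next (T.next (T.next (T.next d))))))) = _
    rw [nnn, h']
  · apply hT (T.next d)
    refine ⟨2, ?_⟩
    show T.inv (T.next (T.next (T.inv (T.next (T.next (T.next d)))))) = _
    rw [nnn, h, nnn]

theorem adj_inv (T : Triangulation D) (hT : T.Loopless) (d : D) :
    (dual T).Adj (face T d) (face T (T.inv d)) := ⟨(face_ne T hT d).symm, d, rfl, rfl⟩

theorem inK_inv (T : Triangulation D) (hT : T.Loopless) {d : D} (h : InK T (face T d)) :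
    InK T (face T (T.inv d)) := by
  obtain ⟨B, h1, h2, h3⟩ := h
  refine ⟨B, h1, h2, ?_⟩
  have h4 : face T (T.inv d) ∈ nbf T d := by simp [nbf]
  rw [← (clq_erase T h1 (by omega) h3).1] at h4
  exact Finset.mem_of_mem_erase h4

theorem inK_iff (T : Triangulation D) (hT : T.Loopless) (d : D) :
    InK T (face T (T.inv d)) ↔ InK T (face T d) := by
  constructor
  · intro h
    have := inK_inv T hT h
    rwa [T.inv_inv] at this
  · exact inK_inv T hT

/-- in a 4-clique -/
theorem opp_eq (T : Triangulation D) (hT : T.Loopless) {d : D} (h : InK T (face T d)) :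
    face T (T.inv (T.next (T.next (T.inv d)))) = face T (T.inv (T.next d)) ∧
      face T (T.inv (T.next d)) ≠ face T d ∧ face T (T.inv (T.next d)) ≠ face T (T.inv d) ∧
      face T (T.inv (T.next d)) ≠ face T (T.inv (T.next (T.next d))) := by
  obtain ⟨B, h1, h2, h3⟩ := h
  obtain ⟨k1, k2⟩ := clq_erase T h1 (by omega) h3
  have hg : face T (T.inv d) ∈ B := by
    have h4 : face T (T.inv d) ∈ nbf T d := by simp [nbf]
    rw [← k1] at h4
    exact Finset.mem_of_mem_erase h4
  obtain ⟨k3, k4⟩ := clq_erase T h1 (by omega) hg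
  have hh : face T (T.inv (T.next (T.next (T.inv d)))) ∈ B.erase (face T (T.inv d)) := by
    rw [k3]; simp [nbf]
  have n1 : face T (T.inv (T.next d)) ≠ face T d := by
    have h4 : face T (T.inv (T.next d)) ∈ nbf T d := by simp [nbf]
    rw [← k1, Finset.mem_erase] at h4
    exact h4.1
  have c3 : ∀ {a b c : Face T}, ({a, b, c} : Finset (Face T)).card = 3 → a ≠ b ∧ a ≠ c ∧ b ≠ c := by
    intro a b c h
    refine ⟨?_, ?_, ?_⟩
    · rintro rfl
      have : ({a, a, c} : Finset (Face T)).card ≤ 2 := by
        rw [Finset.insert_eq_of_mem (by simp)]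
        exact Finset.card_le_two
      omega
    · rintro rfl
      have : ({a, b, a} : Finset (Face T)).card ≤ 2 := by
        rw [Finset.insert_eq_of_mem (by simp)]
        exact Finset.card_le_two
      omega
    · rintro rfl
      have : ({a, b, b} : Finset (Face T)).card ≤ 2 := by
        rw [Finset.insert_eq_of_mem (a := b) (by simp)]
        exact Finset.card_le_two
      omega
  obtain ⟨m1, m2, m3⟩ := c3 k2
  have k4' := k4
  unfold nbf at k4'
  rw [T.inv_inv] at k4'
  obtain ⟨p1, p2, p3⟩ := c3 k4'
  refine ⟨?_, n1, m1.symm, m3⟩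
  -- h is in B, different from f, g
  rw [Finset.mem_erase] at hh
  have hf : face T (T.inv (T.next (T.next (T.inv d)))) ≠ face T d := p2.symm
  have : face T (T.inv (T.next (T.next (T.inv d)))) ∈ B.erase (face T d) := Finset.mem_erase.2 ⟨hf, hh.2⟩
  rw [k1] at this
  simp only [nbf, Finset.mem_insert, Finset.mem_singleton] at this
  rcases this with h | h | h
  · exact absurd h hh.1
  · exact h
  · exact absurd h.symm (no_twist T hT d)

/-- four colours for the faces: only three of them off the 4-cliques -/
theorem exists_f4 [Finite D] (T : Triangulation D) (hT : T.Loopless) :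
    ∃ φ : Face T → Fin 4, (∀ d, φ (face T (T.inv d)) ≠ φ (face T d)) ∧ (∀ f, ¬ InK T f → φ f ≠ 3) ∧
      ∀ B : Finset (Face T), EQ52.Clq (dual T) B → B.card = 4 → ∀ f ∈ B, ∀ g ∈ B, f ≠ g → φ f ≠ φ g := by
  have := Fintype.ofFinite (Face T)
  have hB : EQ52.Stmt_BRK := EQ52.stmt_BRK (EQ52.stmt_BR1 EQ52.stmt_BRC) (EQ52.stmt_BR2 EQ52.stmt_BRC)
  have hdeg : ∀ (v : Face T) (S : Finset (Face T)), (EQ52.nb (dual T) v ∩ S).card ≤ 3 := by
    intro v S
    obtain ⟨d, rfl⟩ := exists_face T v
    refine le_trans (Finset.card_le_card ?_) (card_nbf T d)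
    intro q hq
    have h1 := (Finset.mem_inter.1 hq).1
    exact adj_nbf T (by simpa [EQ52.nb] using h1)
  obtain ⟨χ, hχ⟩ := hB (Face T) (dual T) 4 Finset.univ (by norm_num) (fun v _ => (hdeg v _).trans (by norm_num))
    (fun B _ h => card_clq T h)
  obtain ⟨κ, hκ⟩ := hB (Face T) (dual T) 3 (Finset.univ.filter fun f => ¬ InK T f) le_rfl (fun v _ => hdeg v _) (by
    intro B hS h
    by_contra hc
    push Not at hc
    have h4 := card_clq T h
    obtain ⟨f, hf⟩ : B.Nonempty := Finset.card_pos.1 (by omega)
    exact (Finset.mem_filter.1 (hS hf)).2 ⟨B, h, by omega, hf⟩)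
  refine ⟨fun f => if InK T f then χ f else (κ f).castSucc, ?_, ?_, ?_⟩
  · intro d
    by_cases h : InK T (face T d)
    · simp only [(inK_iff T hT d).2 h, h, if_true]
      exact (hχ _ (Finset.mem_univ _) _ (Finset.mem_univ _) (adj_inv T hT d)).symm
    · have h' : ¬ InK T (face T (T.inv d)) := fun h' => h ((inK_iff T hT d).1 h')
      simp only [h', h, if_false]
      intro h2
      exact hκ _ (Finset.mem_filter.2 ⟨Finset.mem_univ _, h⟩) _ (Finset.mem_filter.2 ⟨Finset.mem_univ _, h'⟩)
        (adj_inv T hT d) (Fin.castSucc_injective _ h2.symm)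
  · intro f h
    simp only [h, if_false]
    intro h2
    have := congrArg Fin.val h2
    have h3 := (κ f).2
    simp at this
    omega
  · intro B h h4 f hf g hg hne
    have h1 : InK T f := ⟨B, h, h4, hf⟩
    have h2 : InK T g := ⟨B, h, h4, hg⟩
    simp only [h1, h2, if_true]
    exact hχ _ (Finset.mem_univ _) _ (Finset.mem_univ _) (h f hf g hg hne)

/-- **the dual of the refinement is 3-edge-colourable** -/
theorem refine_colourable [Finite D] (T : Triangulation D) (hT : T.Loopless) :
    T.refine.DualThreeEdgeColourable := by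
  obtain ⟨φ, p1, p2, p3⟩ := exists_f4 T hT
  have ii := T.inv_inv
  have nnn := T.next_next_next
  have fn : ∀ d, face T (T.next d) = face T d := fun d => face_next T d
  -- the colour of the old vertex
  let c : D → Fin 4 := fun d => if InK T (face T d) then φ (face T (T.inv (T.next d))) else 3
  have q : ∀ {d : D} {x y : D}, InK T (face T d) → (x = d ∨ face T x ∈ nbf T d) → (y = d ∨ face T y ∈ nbf T d) →
      face T x ≠ face T y → φ (face T x) ≠ φ (face T y) := by
    rintro d x y ⟨B, h1, h2, h3⟩ hx hy hne
    have key : ∀ z, (z = d ∨ face T z ∈ nbf T d) → face T z ∈ B := by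
      rintro z (rfl | hz)
      · exact h3
      · rw [← (clq_erase T h1 (by omega) h3).1] at hz
        exact Finset.mem_of_mem_erase hz
    exact p3 B h1 h2 _ (key x hx) _ (key y hy) hne
  have c1 : ∀ d, c d ≠ φ (face T d) := by
    intro d
    by_cases h : InK T (face T d)
    · simp only [c, h, if_true]
      exact q h (Or.inr (by simp [nbf])) (Or.inl rfl) (opp_eq T hT h).2.1
    · simp only [c, h, if_false]
      exact (p2 _ h).symm
  have c2 : ∀ d, c d ≠ φ (face T (T.inv d)) := by
    intro d
    by_cases h : InK T (face T d)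
    · simp only [c, h, if_true]
      exact q h (Or.inr (by simp [nbf])) (Or.inr (by simp [nbf])) (opp_eq T hT h).2.2.1
    · simp only [c, h, if_false]
      exact (p2 _ (fun h' => h ((inK_iff T hT d).1 h'))).symm
  have c3 : ∀ d, c d ≠ φ (face T (T.inv (T.next (T.next d)))) := by
    intro d
    by_cases h : InK T (face T d)
    · simp only [c, h, if_true]
      exact q h (Or.inr (by simp [nbf])) (Or.inr (by simp [nbf])) (opp_eq T hT h).2.2.2
    · simp only [c, h, if_false]
      refine (p2 _ (fun h' => h ?_)).symm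
      have := (inK_iff T hT _).1 h'
      rwa [fn, fn] at this
  have c4 : ∀ d, c (T.next (T.inv d)) = c d := by
    intro d
    by_cases h : InK T (face T d)
    · have h' : InK T (face T (T.next (T.inv d))) := by
        rw [fn]
        exact (inK_iff T hT d).2 h
      simp only [c, h, h', if_true]
      rw [(opp_eq T hT h).1]
    · have h' : ¬ InK T (face T (T.next (T.inv d))) := by
        rw [fn]
        exact fun h' => h ((inK_iff T hT d).1 h')
      simp only [c, h, h', if_false]
  let C : RDart D → Fin 3 := fun x => match x with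
    | .out d => pc (φ (face T d)) (c d)
    | .inn d => pc (φ (face T d)) (c d)
    | .cross d => pc (φ (face T d)) (φ (face T (T.inv d)))
  have hC : ∀ x, C x ≠ C (T.refine.next x) := by
    rintro (d | d | d)
    · show pc (φ (face T d)) (c d) ≠ pc (φ (face T (T.next (T.next d)))) (φ (face T (T.inv (T.next (T.next d)))))
      rw [fn, fn]
      refine pc_ne1 (c1 d).symm ?_ (c3 d)
      have := p1 (T.next (T.next d))
      rw [fn, fn] at this
      exact this.symm
    · show pc (φ (face T d)) (c d) ≠ pc (φ (face T (T.next (T.inv d)))) (c (T.next (T.inv d)))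
      rw [fn, c4]
      exact pc_ne3 (p1 d).symm (c1 d).symm (c2 d).symm
    · show pc (φ (face T d)) (φ (face T (T.inv d))) ≠ pc (φ (face T (T.inv d))) (c (T.inv d))
      refine pc_ne2 (p1 d).symm ?_ (c1 _).symm
      have := c2 (T.inv d)
      rw [ii] at this
      exact this.symm
  refine ⟨C, ?_, fun x => ⟨hC x, ?_, hC _⟩⟩
  · rintro (d | d | d)
    · rfl
    · rfl
    · show pc (φ (face T (T.inv d))) (φ (face T (T.inv (T.inv d)))) = pc (φ (face T d)) (φ (face T (T.inv d)))
      rw [ii, pc_comm]
  · have := hC (T.refine.next (T.refine.next x))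
    rw [T.refine.next_next_next] at this
    exact this.symm

/-- the refinement has no loops -/
theorem refine_loopless (T : Triangulation D) (hT : T.Loopless) : T.refine.Loopless := by
  have nnn := T.next_next_next
  have fn : ∀ d, face T (T.next d) = face T d := fun d => face_next T d
  have ii := T.inv_inv
  have ro : ∀ d, T.refine.rot (.out d) = .out (T.rot d) := by
    intro d
    show T.rInv (T.rNext (T.rNext (.out d))) = _
    simp [Triangulation.rInv, Triangulation.rNext, Triangulation.rot]
  have ri : ∀ d, T.refine.rot (.inn d) = .cross d := by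
    intro d
    show T.rInv (T.rNext (T.rNext (.inn d))) = _
    simp [Triangulation.rInv, Triangulation.rNext, nnn, ii]
  have rc : ∀ d, T.refine.rot (.cross d) = .inn (T.next d) := by
    intro d
    show T.rInv (T.rNext (T.rNext (.cross d))) = _
    simp [Triangulation.rInv, Triangulation.rNext, ii]
  have h1 : ∀ (n : ℕ) (d : D), ∃ e, T.refine.rot^[n] (.out d) = .out e := by
    intro n
    induction n with
    | zero => exact fun d => ⟨d, rfl⟩
    | succ n ih =>
      intro d
      rw [Function.iterate_succ_apply, ro]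
      exact ih _
  have h2 : ∀ (n : ℕ) (x : RDart D) (d : D), (x = .inn d ∨ x = .cross d) →
      ∃ e, face T e = face T d ∧ (T.refine.rot^[n] x = .inn e ∨ T.refine.rot^[n] x = .cross e) := by
    intro n
    induction n with
    | zero => exact fun x d h => ⟨d, rfl, h⟩
    | succ n ih =>
      intro x d h
      rw [Function.iterate_succ_apply]
      rcases h with rfl | rfl
      · rw [ri]
        exact ih _ d (Or.inr rfl)
      · rw [rc]
        obtain ⟨e, he, h⟩ := ih _ (T.next d) (Or.inl rfl)
        exact ⟨e, by rw [he, fn], h⟩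
  rintro (d | d | d) ⟨n, hn⟩
  · obtain ⟨e, he⟩ := h1 n d
    rw [he] at hn
    exact absurd hn (by show RDart.out e ≠ RDart.inn d; simp)
  · obtain ⟨e, -, he⟩ := h2 n _ d (Or.inl rfl)
    have hn' : T.refine.rot^[n] (.inn d) = .out d := hn
    rcases he with he | he <;> rw [he] at hn' <;> simp at hn'
  · obtain ⟨e, h3, he⟩ := h2 n _ d (Or.inr rfl)
    have hn' : T.refine.rot^[n] (.cross d) = .cross (T.inv d) := hn
    rcases he with he | he <;> rw [he] at hn' <;> simp at hn'
    rw [hn'] at h3
    exact face_ne T hT d h3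

end ESub
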