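import Mathlib
import Pool.Agent.Work.MP_a2fb93_sub.Defs
set_option autoImplicit false

/-!
The refinement of a triangulation by the barycentres of its faces: each edge is replaced by the edge that crosses it.
-/

namespace ESub

/-- Darts of the refinement. It has the vertices of T and a new vertex in each face of T (its centre).
out d leads from the origin of d to the centre of the face of d, inn d leads back;
cross d leads from the centre of the face of d to the centre of the face of inv d, across the edge d. -/
inductive RDart (D : Type) : Type
  | out (d : D) : RDart D
  | inn (d : D) : RDart D
  | cross (d : D) : RDart D

namespace Triangulation

variable {D : Type}

/-- reversal of a dart of the refinement -/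
def rInv (T : Triangulation D) : RDart D → RDart D
  | .out d => .inn d
  | .inn d => .out d
  | .cross d => .cross (T.inv d)

/-- The next side of a triangle of the refinement. For each dart d of T there is the triangle with the
corners origin of d, centre of the face of inv d, centre of the face of d, with the sides
out (next (inv d)), cross (inv d), inn d. -/
def rNext (T : Triangulation D) : RDart D → RDart D
  | .out d => .cross (T.next (T.next d))
  | .inn d => .out (T.next (T.inv d))
  | .cross d => .inn (T.inv d)

/-- The refinement of T: a new vertex in each face, joined to its three corners and to the new vertices of the
three neighbouring faces; the edges of T are removed. -/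
def refine (T : Triangulation D) : Triangulation (RDart D) where
  inv := T.rInv
  next := T.rNext
  inv_inv := by
    rintro (d | d | d) <;> simp [rInv, T.inv_inv]
  inv_ne := by
    rintro (d | d | d) <;> simp [rInv, T.inv_ne]
  next_next_next := by
    rintro (d | d | d) <;> simp [rNext, T.next_next_next, T.inv_inv]
  next_ne := by
    rintro (d | d | d) <;> simp [rNext]

end Triangulation

end ESub
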